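import Mathlib
import Pool.Agent.H868Z.Diagram.Defs
import Pool.Agent.H868Z.Diagram.FDefs
import Pool.Agent.H868Z.Diagram.NoF

/-!
# MP_f02a84_al, Q1: a non-linear diagram group without a copy of Thompson's group `F`

The example is `D(P, ab)` for `P = ⟨a, b, p, q, r, s | a = ap, b = pb, p = q, p = r, p = s,
q = r, q = s⟩`, the restricted wreath product of the free group of rank two with `ℤ`. It has an
infinite strictly descending chain of centralisers.
-/

namespace Pool.Agent.Results.MP_f02a84_al.NotLinear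

open Pool.Agent.H868Z.Diagram

universe v

/-- There is a diagram group (over a finite presentation) with no subgroup isomorphic to `F` that
embeds in no `GL_n(K)`, for any field `K`. -/
theorem result : ∃ (A : Type) (P : Pres A) (w : Word P), Finite A ∧ P.rel.Finite ∧
    (∀ x y : List A, (x, y) ∈ P.rel → (y, x) ∉ P.rel) ∧
    (∀ H : Subgroup (DiagramGroup P w), IsEmpty (H ≃* ThompsonF)) ∧
    ∀ (K : Type v) [Field K] (n : ℕ) (f : DiagramGroup P w →* GL (Fin n) K),
      ¬ Function.Injective f := by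
  refine ⟨Fin 6, P0, w0, inferInstance, by simp [P0], ?_, no_F, not_linear⟩
  rintro x y h
  simp only [P0, Set.mem_insert_iff, Set.mem_singleton_iff, Prod.mk.injEq] at h ⊢
  rcases h with ⟨rfl, rfl⟩ | ⟨rfl, rfl⟩ | ⟨rfl, rfl⟩ | ⟨rfl, rfl⟩ | ⟨rfl, rfl⟩ | ⟨rfl, rfl⟩ |
    ⟨rfl, rfl⟩ <;> decide

end Pool.Agent.Results.MP_f02a84_al.NotLinear
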