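import Mathlib
import Pool.Agent.H868Z.Diagram.Defs
import Pool.Agent.H868Z.Diagram.FDefs
import Pool.Agent.H868Z.Diagram.NoF

/-!
# MP_f02a84_al, Q2: a diagram group without a copy of `F` that is not residually finite

The example is `D(P, ab)` for `P = ⟨a, b, p, q, r, s | a = ap, b = pb, p = q, p = r, p = s,
q = r, q = s⟩`, the restricted wreath product of the free group of rank two with `ℤ`.
-/

namespace Pool.Agent.Results.MP_f02a84_al.NotResiduallyFinite

open Pool.Agent.H868Z.Diagram

/-- There is a diagram group (over a finite presentation) with no subgroup isomorphic to `F` in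
which the intersection of all finite-index subgroups is nontrivial. -/
theorem result : ∃ (A : Type) (P : Pres A) (w : Word P), Finite A ∧ P.rel.Finite ∧
    (∀ x y : List A, (x, y) ∈ P.rel → (y, x) ∉ P.rel) ∧
    (∀ H : Subgroup (DiagramGroup P w), IsEmpty (H ≃* ThompsonF)) ∧
    ∃ g : DiagramGroup P w, g ≠ 1 ∧ ∀ H : Subgroup (DiagramGroup P w), H.FiniteIndex → g ∈ H := by
  refine ⟨Fin 6, P0, w0, inferInstance, by simp [P0], ?_, no_F, ?_⟩
  · rintro x y h
    simp only [P0, Set.mem_insert_iff, Set.mem_singleton_iff, Prod.mk.injEq] at h ⊢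
    rcases h with ⟨rfl, rfl⟩ | ⟨rfl, rfl⟩ | ⟨rfl, rfl⟩ | ⟨rfl, rfl⟩ | ⟨rfl, rfl⟩ | ⟨rfl, rfl⟩ |
      ⟨rfl, rfl⟩ <;> decide
  · have h := not_rf
    rw [Group.residuallyFinite_iff_forall_finiteIndex] at h
    push Not at h
    obtain ⟨g, h1, h2⟩ := h
    exact ⟨g, h2, fun H hH => h1 H⟩

end Pool.Agent.Results.MP_f02a84_al.NotResiduallyFinite
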